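import Pool.Agent.helper99.VN.SpecU

set_option autoImplicit false

open scoped MatrixGroups ContDiff Topology UpperHalfPlane ComplexConjugate ENNReal
open UpperHalfPlane MeasureTheory Filter Set

namespace Pool.Agent.VN

open Pool.Agent.RS Pool.Agent.VQ
open Pool.Agent.RPQ (Net Cl)

noncomputable section

/-- an index function of a finite set -/
theorem PTHN_idx {α : Type} (s : Finset α) (q : ℕ) (hq : s.card ≤ q) :
    ∃ f : α → ℕ, (∀ a ∈ s, f a < q) ∧ ∀ a ∈ s, ∀ b ∈ s, f a = f b → a = b := by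
  classical
  refine ⟨fun a => if h : a ∈ s then ((s.equivFin ⟨a, h⟩ : Fin s.card) : ℕ) else 0, ?_, ?_⟩
  · intro a ha
    simp only [dif_pos ha]
    exact lt_of_lt_of_le (s.equivFin ⟨a, ha⟩).isLt hq
  · intro a ha b hb h
    simp only [dif_pos ha, dif_pos hb] at h
    have h1 : s.equivFin ⟨a, ha⟩ = s.equivFin ⟨b, hb⟩ := Fin.ext h
    have h2 := s.equivFin.injective h1
    exact congrArg Subtype.val h2

/-- two digits -/
theorem PTHN_dig (q a b a' b' : ℕ) (hb : b < q) (hb' : b' < q) (h : a * q + b = a' * q + b') :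
    a = a' ∧ b = b' := by
  have hq : 0 < q := lt_of_le_of_lt (Nat.zero_le b) hb
  have h1 : (a * q + b) / q = a := by
    rw [mul_comm, Nat.mul_add_div hq, Nat.div_eq_of_lt hb, add_zero]
  have h2 : (a' * q + b') / q = a' := by
    rw [mul_comm, Nat.mul_add_div hq, Nat.div_eq_of_lt hb', add_zero]
  have h3 : a = a' := by rw [← h1, ← h2, h]
  refine ⟨h3, ?_⟩
  rw [h3] at h
  exact Nat.add_left_cancel h

theorem PTHN_lt (q M a b : ℕ) (ha : a < M) (hb : b < q) : a * q + b < M * q := by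
  have h1 : (a + 1) * q ≤ M * q := Nat.mul_le_mul_right q ha
  have h2 : (a + 1) * q = a * q + q := by ring
  omega

theorem PTHN_path (α X : Type) (q S : ℕ) (F0 : Finset α) (F : α → Finset α) (Xs : Set X)
    (st : X → ℕ → α) (h0 : F0.card ≤ q) (hF : ∀ a, (F a).card ≤ q)
    (hx : ∀ x ∈ Xs, st x 0 ∈ F0 ∧ (∀ i, i + 1 < S → st x (i + 1) ∈ F (st x i))) (k : ℕ)
    (hk : 1 ≤ k) : k ≤ S → ∃ cl : X → ℕ, ∀ x ∈ Xs, cl x < q ^ k ∧
      ∀ x' ∈ Xs, cl x' = cl x → ∀ i < k, st x' i = st x i := by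
  choose f hf1 hf2 using fun a => PTHN_idx (F a) q (hF a)
  obtain ⟨f0, hf01, hf02⟩ := PTHN_idx F0 q h0
  induction k, hk using Nat.le_induction with
  | base =>
    intro _
    refine ⟨fun x => f0 (st x 0), fun x hx1 => ⟨?_, ?_⟩⟩
    · rw [pow_one]
      exact hf01 _ (hx x hx1).1
    · intro x' hx' h i hi
      have hi0 : i = 0 := by omega
      rw [hi0]
      exact hf02 _ (hx x' hx').1 _ (hx x hx1).1 h
  | succ k hk ih =>
    intro hkS
    obtain ⟨cl, hcl⟩ := ih (by omega)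
    have hmem : ∀ x ∈ Xs, st x k ∈ F (st x (k - 1)) := by
      intro x hx1
      have h1 := (hx x hx1).2 (k - 1) (by omega)
      have h2 : k - 1 + 1 = k := by omega
      rw [h2] at h1
      exact h1
    refine ⟨fun x => cl x * q + f (st x (k - 1)) (st x k), fun x hx1 => ⟨?_, ?_⟩⟩
    · rw [pow_succ]
      exact PTHN_lt q (q ^ k) (cl x) _ (hcl x hx1).1 (hf1 _ _ (hmem x hx1))
    · intro x' hx' h i hi
      obtain ⟨h3, h4⟩ := PTHN_dig q _ _ _ _ (hf1 _ _ (hmem x' hx')) (hf1 _ _ (hmem x hx1)) h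
      have h5 := (hcl x hx1).2 x' hx' h3
      rcases Nat.lt_or_ge i k with hik | hik
      · exact h5 i hik
      · have hik' : i = k := by omega
        rw [hik']
        have h6 : st x' (k - 1) = st x (k - 1) := h5 (k - 1) (by omega)
        rw [h6] at h4
        have h7 := hmem x' hx'
        rw [h6] at h7
        exact hf2 _ _ h7 _ (hmem x hx1) h4

theorem PTHN_proof : PTHN_stmt := by
  intro α β X q n S F0 F G Xs st en hS h0 hF hG hx
  obtain ⟨cl, hcl⟩ := PTHN_path α X q S F0 F Xs st h0 hF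
    (fun x hx1 => ⟨(hx x hx1).1, (hx x hx1).2.1⟩) S hS le_rfl
  choose g hg1 hg2 using fun a => PTHN_idx (G a) n (hG a)
  refine ⟨fun x => cl x * n + g (st x (S - 1)) (en x), fun x hx1 => ⟨?_, ?_⟩⟩
  · exact PTHN_lt n (q ^ S) (cl x) _ (hcl x hx1).1 (hg1 _ _ (hx x hx1).2.2)
  · intro x' hx' h
    obtain ⟨h3, h4⟩ := PTHN_dig n _ _ _ _ (hg1 _ _ (hx x' hx').2.2) (hg1 _ _ (hx x hx1).2.2) h
    have h5 := (hcl x hx1).2 x' hx' h3
    refine ⟨?_, h5⟩
    have h6 : st x' (S - 1) = st x (S - 1) := h5 (S - 1) (by omega)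
    rw [h6] at h4
    have h7 := (hx x' hx').2.2
    rw [h6] at h7
    exact hg2 _ _ h7 _ (hx x hx1).2.2 h4

end

end Pool.Agent.VN
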